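import Pool.Agent.K3h43.DSL.Stm

/-! MP_ec2393_nt: brick L (the λ-lemma). -/

set_option autoImplicit false

namespace Pool.Agent.K3h22.DSL

open Pool.Agent.K3h43.DSL MvPolynomial

/-- `v₀^a v₁^b v₂^c` -/
noncomputable def mn (a b c : ℕ) : R := X 0 ^ a * X 1 ^ b * X 2 ^ c

lemma mn_hom (a b c d : ℕ) (h : a + b + c = d) : (mn a b c).IsHomogeneous d := by
  have h0 : (X 0 ^ a : R).IsHomogeneous a := by
    simpa using (isHomogeneous_X ℚ (0 : Fin 3)).pow a
  have h1 : (X 1 ^ b : R).IsHomogeneous b := by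
    simpa using (isHomogeneous_X ℚ (1 : Fin 3)).pow b
  have h2 : (X 2 ^ c : R).IsHomogeneous c := by
    simpa using (isHomogeneous_X ℚ (2 : Fin 3)).pow c
  rw [← h]
  exact (h0.mul h1).mul h2

lemma sb_mn (x y z : R) (a b c : ℕ) : sb x y z (mn a b c) = x ^ a * y ^ b * z ^ c := by
  simp [sb, mn]

lemma claim1 (d : ℕ) (μ : R →ₗ[ℚ] ℚ)
    (h1 : ∀ Q : R, Q.IsHomogeneous d → μ (sb (X 0 + X 1) (X 1) (X 2) Q) = μ Q) :
    ∀ a b c : ℕ, a + (b + 1) + c = d → μ (mn a (b + 1) c) = 0 := by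
  intro a
  induction a using Nat.strong_induction_on with
  | _ a ih =>
    intro b c h
    have hQ := h1 (mn (a + 1) b c) (mn_hom _ _ _ _ (by omega))
    rw [sb_mn, add_pow, Finset.sum_mul, Finset.sum_mul, map_sum, Finset.sum_range_succ,
      Finset.sum_range_succ] at hQ
    have hz : ∑ x ∈ Finset.range a,
        μ ((X 0 : R) ^ x * X 1 ^ (a + 1 - x) * ((a + 1).choose x : R) * X 1 ^ b * X 2 ^ c) = 0 := by
      apply Finset.sum_eq_zero
      intro x hx
      have hx' : x < a := Finset.mem_range.mp hx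
      have e : (X 0 : R) ^ x * X 1 ^ (a + 1 - x) * ((a + 1).choose x : R) * X 1 ^ b * X 2 ^ c
          = ((a + 1).choose x : ℚ) • mn x ((a - x + b) + 1) c := by
        rw [mn, show a + 1 - x = (a - x) + 1 by omega, smul_eq_C_mul, map_natCast]
        ring
      rw [e, map_smul, ih x hx' (a - x + b) c (by omega), smul_zero]
    have e1 : (X 0 : R) ^ a * X 1 ^ (a + 1 - a) * ((a + 1).choose a : R) * X 1 ^ b * X 2 ^ c
        = ((a : ℚ) + 1) • mn a (b + 1) c := by
      rw [mn, show a + 1 - a = 1 by omega, smul_eq_C_mul, Nat.choose_succ_self_right]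
      push_cast
      rw [map_add, map_natCast, map_one]
      ring
    have e2 : (X 0 : R) ^ (a + 1) * X 1 ^ (a + 1 - (a + 1)) * ((a + 1).choose (a + 1) : R)
        * X 1 ^ b * X 2 ^ c = mn (a + 1) b c := by
      rw [mn, Nat.sub_self, Nat.choose_self]
      push_cast
      ring
    rw [hz, e1, e2, map_smul, zero_add] at hQ
    have : ((a : ℚ) + 1) • μ (mn a (b + 1) c) = 0 := by linarith
    rw [smul_eq_mul] at this
    rcases mul_eq_zero.mp this with h' | h'
    · exfalso
      have : (0 : ℚ) < (a : ℚ) + 1 := by positivity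
      linarith
    · exact h'

theorem t_Lam : Lam := by
  intro d μ hd h1 h2 h3 Q hQ
  have c1 := claim1 d μ h1
  have c2 : ∀ a c : ℕ, a + c = d → μ (mn a 0 c) = 0 := by
    intro a c h
    rcases Nat.eq_zero_or_pos a with h0 | h0
    · subst h0
      have hh := h3 (mn 0 0 c) (mn_hom _ _ _ _ (by omega))
      rw [sb_mn] at hh
      have e : (X 0 : R) ^ 0 * X 2 ^ 0 * X 1 ^ c = mn 0 (c - 1 + 1) 0 := by
        rw [mn, show c - 1 + 1 = c by omega]
        ring
      rw [e, c1 0 (c - 1) 0 (by omega)] at hh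
      exact hh.symm
    · have hh := h2 (mn a 0 c) (mn_hom _ _ _ _ (by omega))
      rw [sb_mn] at hh
      have e : (X 1 : R) ^ a * X 0 ^ 0 * X 2 ^ c = mn 0 (a - 1 + 1) c := by
        rw [mn, show a - 1 + 1 = a by omega]
        ring
      rw [e, c1 0 (a - 1) c (by omega)] at hh
      exact hh.symm
  have c3 : ∀ a b c : ℕ, a + b + c = d → μ (mn a b c) = 0 := by
    intro a b c h
    rcases b with _ | b
    · exact c2 a c (by omega)
    · exact c1 a b c (by omega)
  rw [Q.as_sum, map_sum]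
  apply Finset.sum_eq_zero
  intro m hm
  have hm' : coeff m Q ≠ 0 := mem_support_iff.mp hm
  have hdeg := hQ hm'
  have hs : m 0 + m 1 + m 2 = d := by
    rw [← hdeg, Finsupp.weight_apply, Finsupp.sum_fintype _ _ (by simp)]
    simp [Fin.sum_univ_three]
  have e : monomial m (coeff m Q) = (coeff m Q) • mn (m 0) (m 1) (m 2) := by
    rw [monomial_eq, smul_eq_C_mul, mn, Finsupp.prod_fintype _ _ (by simp),
      Fin.prod_univ_three]
  rw [e, map_smul, c3 _ _ _ hs, smul_zero]

end Pool.Agent.K3h22.DSL
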